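import Mathlib
import Pool.Agent.MP01c1f4.Final

set_option autoImplicit false

namespace Pool.Agent.Results.MP_01c1f4_co.FewerRealClasses

open Pool.Agent.MP01c1f4

/-- The square `x₁² + x₂²` of the length of the vector `x` of the plane `K²`. -/
def sq {K : Type} [CommRing K] (x : Fin 2 → K) : K := x 0 ^ 2 + x 1 ^ 2

/-- The complete bipartite graph `K₄,₄` (classes `inl 0, …, inl 3` and `inr 0, …, inr 3`) without
the three independent edges `inl i — inr i`, `i = 1, 2, 3`. -/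
def G : SimpleGraph (Fin 4 ⊕ Fin 4) :=
  (completeBipartiteGraph (Fin 4) (Fin 4)).deleteEdges
    {s(Sum.inl 1, Sum.inr 1), s(Sum.inl 2, Sum.inr 2), s(Sum.inl 3, Sum.inr 3)}

/-- The realisations `p` and `q` of `G` in `K²` are equivalent: every edge has the same squared
length in both. -/
def Equivalent {K : Type} [CommRing K] (p q : Fin 4 ⊕ Fin 4 → Fin 2 → K) : Prop :=
  ∀ u v, G.Adj u v → sq (p u - p v) = sq (q u - q v)

/-- The realisations `p` and `q` are congruent: every pair of vertices has the same squared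
distance in both. -/
def Congruent {K : Type} [CommRing K] (p q : Fin 4 ⊕ Fin 4 → Fin 2 → K) : Prop :=
  ∀ u v, sq (p u - p v) = sq (q u - q v)

/-- The congruence classes of the realisations of `G` in `K²` that are equivalent to `p`. -/
def Classes {K : Type} [CommRing K] (p : Fin 4 ⊕ Fin 4 → Fin 2 → K) : Type :=
  Quotient (⟨fun q q' => Congruent q.1 q'.1, ⟨fun _ _ _ => rfl, fun h u v => (h u v).symm,
    fun h h' u v => (h u v).trans (h' u v)⟩⟩ :
      Setoid {q : Fin 4 ⊕ Fin 4 → Fin 2 → K // Equivalent p q})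

/-! ### Relabelling -/

/-- The labelling of the vertices by `0, …, 7`. -/
def e8 : Fin 8 ≃ Fin 4 ⊕ Fin 4 := (finSumFinEquiv (m := 4) (n := 4)).symm

lemma adj_iff : ∀ i j : Fin 8, G.Adj (e8 i) (e8 j) ↔
    ∃ e, (i = eI e ∧ j = eJ e) ∨ (i = eJ e ∧ j = eI e) := by
  have h : ∀ u v : Fin 4 ⊕ Fin 4, G.Adj u v ↔
      ((u.isLeft ∧ v.isRight ∨ u.isRight ∧ v.isLeft) ∧
        ¬ ((u = Sum.inl 1 ∧ v = Sum.inr 1 ∨ u = Sum.inr 1 ∧ v = Sum.inl 1) ∨
          (u = Sum.inl 2 ∧ v = Sum.inr 2 ∨ u = Sum.inr 2 ∧ v = Sum.inl 2) ∨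
          (u = Sum.inl 3 ∧ v = Sum.inr 3 ∨ u = Sum.inr 3 ∧ v = Sum.inl 3))) := by
    intro u v
    simp only [G, SimpleGraph.deleteEdges_adj, completeBipartiteGraph_adj, Set.mem_insert_iff,
      Set.mem_singleton_iff, Sym2.eq_iff]
  intro i j
  rw [h]
  revert i j
  decide

lemma sqd_e8 {K : Type} [CommRing K] (q : Fin 4 ⊕ Fin 4 → Fin 2 → K) (i j : Fin 8) :
    sqd (fun v => q (e8 v)) i j = sq (q (e8 i) - q (e8 j)) := by
  simp [sqd, sq, Fin.sum_univ_two]

lemma sqd_symm {K : Type} [CommRing K] (q : Fin 8 → Fin 2 → K) (i j : Fin 8) :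
    sqd q i j = sqd q j i := by
  simp only [sqd, Fin.sum_univ_two]; ring

lemma equivalent_iff {K : Type} [CommRing K] (p q : Fin 4 ⊕ Fin 4 → Fin 2 → K) :
    Equivalent p q ↔ lam (fun v => q (e8 v)) = lam (fun v => p (e8 v)) := by
  constructor
  · intro h
    funext e
    have h1 := h (e8 (eI e)) (e8 (eJ e)) ((adj_iff _ _).2 ⟨e, Or.inl ⟨rfl, rfl⟩⟩)
    rw [← sqd_e8, ← sqd_e8] at h1
    exact h1.symm
  · intro h u v huv
    obtain ⟨i, rfl⟩ := e8.surjective u
    obtain ⟨j, rfl⟩ := e8.surjective v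
    obtain ⟨e, ⟨rfl, rfl⟩ | ⟨rfl, rfl⟩⟩ := (adj_iff _ _).1 huv
    · rw [← sqd_e8, ← sqd_e8]
      exact (congrFun h e).symm
    · rw [← sqd_e8, ← sqd_e8, sqd_symm, sqd_symm (fun v => q (e8 v))]
      exact (congrFun h e).symm

lemma generic_e8 {K : Type} [Field K] [Algebra ℚ K] {p : Fin 4 ⊕ Fin 4 → Fin 2 → K}
    (hp : AlgebraicIndependent ℚ (fun x : (Fin 4 ⊕ Fin 4) × Fin 2 => p x.1 x.2)) :
    AlgebraicIndependent ℚ (fun x : Fin 8 × Fin 2 => p (e8 x.1) x.2) :=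
  hp.comp (fun x : Fin 8 × Fin 2 => (e8 x.1, x.2)) (by
    rintro ⟨a, b⟩ ⟨c, d⟩ h
    simp only [Prod.mk.injEq] at h
    exact Prod.ext (e8.injective h.1) h.2)

/-- The thirteen squared lengths of a generic placement are algebraically independent. -/
lemma algInd_lam' {K : Type} [Field K] [Algebra ℚ K] {p : Fin 8 → Fin 2 → K}
    (hp : AlgebraicIndependent ℚ (fun x : Fin 8 × Fin 2 => p x.1 x.2)) :
    AlgebraicIndependent ℚ (lam p) := by
  have h := algInd_lam_PX.map' (f := MvPolynomial.aeval (fun x : Fin 8 × Fin 2 => p x.1 x.2)) hp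
  have : (MvPolynomial.aeval (fun x : Fin 8 × Fin 2 => p x.1 x.2) :
      MvPolynomial (Fin 8 × Fin 2) ℚ →ₐ[ℚ] K) ∘ lam PX = lam p := by
    funext e
    simp [lam, sqd, PX]
  rwa [this] at h

/-! ### Finiteness over `ℂ` -/

lemma exists_gaugeC (q : Fin 8 → Fin 2 → ℂ) (h : sqd q 0 4 ≠ 0) :
    ∃ Y : Fin 13 → ℂ, ∀ i j, sqd (gp Y) i j = sqd q i j := by
  obtain ⟨ℓ, hℓ2⟩ : ∃ ℓ : ℂ, ℓ ^ 2 = sqd q 0 4 := IsAlgClosed.exists_pow_nat_eq _ (by norm_num)
  have hℓ0 : ℓ ≠ 0 := by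
    rintro rfl
    exact h (by rw [← hℓ2]; ring)
  set c : ℂ := (q 4 0 - q 0 0) / ℓ with hc
  set s : ℂ := (q 4 1 - q 0 1) / ℓ with hs
  have hcs : c ^ 2 + s ^ 2 = 1 := by
    rw [hc, hs]
    have : (q 4 0 - q 0 0) ^ 2 + (q 4 1 - q 0 1) ^ 2 = ℓ ^ 2 := by
      rw [hℓ2]; simp only [sqd, Fin.sum_univ_two]; ring
    field_simp
    linear_combination this
  have e4 : c * (q 4 0 - q 0 0) + s * (q 4 1 - q 0 1) = ℓ := by
    rw [hc, hs]
    have : (q 4 0 - q 0 0) ^ 2 + (q 4 1 - q 0 1) ^ 2 = ℓ ^ 2 := by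
      rw [hℓ2]; simp only [sqd, Fin.sum_univ_two]; ring
    field_simp
    linear_combination this
  have e4' : -s * (q 4 0 - q 0 0) + c * (q 4 1 - q 0 1) = 0 := by
    rw [hc, hs]; field_simp; ring
  let q' : Fin 8 → Fin 2 → ℂ := fun v =>
    ![c * (q v 0 - q 0 0) + s * (q v 1 - q 0 1), -s * (q v 0 - q 0 0) + c * (q v 1 - q 0 1)]
  refine ⟨![ℓ, q' 1 0, q' 1 1, q' 2 0, q' 2 1, q' 3 0, q' 3 1, q' 5 0, q' 5 1, q' 6 0, q' 6 1,
    q' 7 0, q' 7 1], ?_⟩
  have hq' : gp (![ℓ, q' 1 0, q' 1 1, q' 2 0, q' 2 1, q' 3 0, q' 3 1, q' 5 0, q' 5 1, q' 6 0,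
      q' 6 1, q' 7 0, q' 7 1]) = q' := by
    funext v k
    fin_cases v
    · fin_cases k <;> simp [gp, q']
    · fin_cases k <;> simp [gp, q']
    · fin_cases k <;> simp [gp, q']
    · fin_cases k <;> simp [gp, q']
    · fin_cases k
      · simp [gp, q', e4]
      · simpa [gp, q'] using e4'.symm
    · fin_cases k <;> simp [gp, q']
    · fin_cases k <;> simp [gp, q']
    · fin_cases k <;> simp [gp, q']
  intro i j
  rw [hq']
  simp only [sqd, Fin.sum_univ_two, q', Matrix.cons_val_zero, Matrix.cons_val_one]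
  linear_combination ((q i 0 - q j 0) ^ 2 + (q i 1 - q j 1) ^ 2) * hcs

open MvPolynomial in
lemma aeval_cons_eqC (l : Fin 13 → ℂ) (d : ℂ) (Φ : MvPolynomial (Fin 14) ℚ) :
    aeval (Fin.cons d l : Fin 14 → ℂ) Φ
      = ((finSuccEquiv ℚ 13 Φ).map ((aeval l : MvPolynomial (Fin 13) ℚ →ₐ[ℚ] ℂ) :
        MvPolynomial (Fin 13) ℚ →+* ℂ)).eval d := by
  induction Φ using MvPolynomial.induction_on with
  | C a => simp [finSuccEquiv_apply]
  | add p q hp hq => simp only [map_add, Polynomial.map_add, Polynomial.eval_add, hp, hq]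
  | mul_X p n hp =>
    rw [map_mul, map_mul, Polynomial.map_mul, Polynomial.eval_mul, hp, aeval_X]
    congr 1
    refine Fin.cases ?_ (fun n => ?_) n
    · simp [finSuccEquiv_X_zero]
    · simp [finSuccEquiv_X_succ]

open MvPolynomial in
lemma finite_valuesC {p : Fin 8 → Fin 2 → ℂ} (hp : AlgebraicIndependent ℚ (lam p))
    (i j : Fin 8) :
    {d : ℂ | ∃ q : Fin 8 → Fin 2 → ℂ, lam q = lam p ∧ d = sqd q i j}.Finite := by
  have hpos : lam p 0 ≠ 0 := hp.ne_zero 0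
  obtain ⟨Φ, hΦ, hrel⟩ := exists_relation i j
  set Ψ := (finSuccEquiv ℚ 13 Φ).map ((aeval (lam p) : MvPolynomial (Fin 13) ℚ →ₐ[ℚ] ℂ) :
        MvPolynomial (Fin 13) ℚ →+* ℂ) with hΨ
  have hΨ0 : Ψ ≠ 0 := by
    rw [hΨ]
    intro h0
    apply hΦ
    have h1 : finSuccEquiv ℚ 13 Φ = 0 := by
      apply Polynomial.map_injective _ (show Function.Injective
        ((aeval (lam p) : MvPolynomial (Fin 13) ℚ →ₐ[ℚ] ℂ) : MvPolynomial (Fin 13) ℚ →+* ℂ)
        from hp)
      rw [h0, Polynomial.map_zero]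
    exact (finSuccEquiv ℚ 13).injective (by rw [h1, map_zero])
  refine (Ψ.roots.toFinset.finite_toSet).subset ?_
  rintro d ⟨q, hq, rfl⟩
  have h04 : sqd q 0 4 ≠ 0 := by
    have e : sqd q 0 4 = lam q 0 := rfl
    rw [e, hq]; exact hpos
  obtain ⟨Y, hY⟩ := exists_gaugeC q h04
  simp only [Finset.mem_coe, Multiset.mem_toFinset, Polynomial.mem_roots hΨ0, Polynomial.IsRoot]
  rw [hΨ, ← aeval_cons_eqC]
  have h1 := congrArg (aeval Y) hrel
  rw [map_zero, MvPolynomial.comp_aeval_apply] at h1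
  rw [← h1]
  congr 1
  congr 1
  funext n
  have key : ∀ a b, sqd q a b = (aeval Y) (sqd (gp (X : Fin 13 → MvPolynomial (Fin 13) ℚ)) a b) := by
    intro a b
    have h2 := map_sqd ((aeval Y : MvPolynomial (Fin 13) ℚ →ₐ[ℚ] ℂ) : MvPolynomial (Fin 13) ℚ →+* ℂ)
      (gp (X : Fin 13 → MvPolynomial (Fin 13) ℚ)) a b
    have h3 : (fun v k => ((aeval Y : MvPolynomial (Fin 13) ℚ →ₐ[ℚ] ℂ) :
        MvPolynomial (Fin 13) ℚ →+* ℂ) (gp (X : Fin 13 → MvPolynomial (Fin 13) ℚ) v k))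
        = gp Y := by
      funext v k
      rw [map_gp]
      simp
    rw [h3, hY] at h2
    exact h2.symm
  refine Fin.cases ?_ (fun n => ?_) n
  · simpa using key i j
  · simp only [Fin.cons_succ]
    rw [← hq]
    exact key _ _

/-- The matrix of squared distances of a class. -/
def Classes.mat {K : Type} [CommRing K] {p : Fin 4 ⊕ Fin 4 → Fin 2 → K} (x : Classes p) :
    Fin 4 ⊕ Fin 4 → Fin 4 ⊕ Fin 4 → K :=
  Quotient.lift (fun q => fun u v => sq (q.1 u - q.1 v))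
    (fun q q' (h : Congruent q.1 q'.1) => funext fun u => funext fun v => h u v) x

lemma Classes.mat_injective {K : Type} [CommRing K] {p : Fin 4 ⊕ Fin 4 → Fin 2 → K} :
    Function.Injective (Classes.mat (p := p)) := by
  intro x y
  refine Quotient.inductionOn₂ x y ?_
  intro q q' h
  exact Quotient.sound fun u v => congrFun (congrFun h u) v

lemma finite_classes_of {K : Type} [CommRing K] {p : Fin 4 ⊕ Fin 4 → Fin 2 → K}
    (h : ∀ i j : Fin 8, {d : K | ∃ q : Fin 8 → Fin 2 → K,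
      lam q = lam (fun v => p (e8 v)) ∧ d = sqd q i j}.Finite) : Finite (Classes p) := by
  have h1 : {D : Fin 4 ⊕ Fin 4 → Fin 4 ⊕ Fin 4 → K | ∀ u, D u ∈ {E : Fin 4 ⊕ Fin 4 → K | ∀ v, E v ∈
      {d : K | ∃ q : Fin 8 → Fin 2 → K, lam q = lam (fun v => p (e8 v)) ∧
        d = sqd q (e8.symm u) (e8.symm v)}}}.Finite :=
    Set.Finite.pi' fun u => Set.Finite.pi' fun v => h _ _
  have h2 : Set.range (Classes.mat (p := p)) ⊆ {D : Fin 4 ⊕ Fin 4 → Fin 4 ⊕ Fin 4 → K |
      ∀ u, D u ∈ {E : Fin 4 ⊕ Fin 4 → K | ∀ v, E v ∈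
      {d : K | ∃ q : Fin 8 → Fin 2 → K, lam q = lam (fun v => p (e8 v)) ∧
        d = sqd q (e8.symm u) (e8.symm v)}}} := by
    rintro D ⟨x, rfl⟩
    refine Quotient.inductionOn x ?_
    intro q u v
    refine ⟨fun v => q.1 (e8 v), (equivalent_iff _ _).1 q.2, ?_⟩
    rw [sqd_e8]
    simp [Classes.mat]
  have h3 : Finite (Set.range (Classes.mat (p := p))) := (h1.subset h2).to_subtype
  exact Finite.of_injective_finite_range Classes.mat_injective

lemma finite_classesC {p : Fin 4 ⊕ Fin 4 → Fin 2 → ℂ}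
    (hp : AlgebraicIndependent ℚ (fun x : (Fin 4 ⊕ Fin 4) × Fin 2 => p x.1 x.2)) :
    Finite (Classes p) :=
  finite_classes_of fun i j =>
    finite_valuesC (p := fun v => p (e8 v)) (algInd_lam' (p := fun v => p (e8 v)) (generic_e8 hp)) i j

/-! ### Real classes and complex classes -/

/-- A real placement seen as a complex one. -/
def toC (p : Fin 4 ⊕ Fin 4 → Fin 2 → ℝ) : Fin 4 ⊕ Fin 4 → Fin 2 → ℂ := fun v k => (p v k : ℂ)

lemma sq_toC (q : Fin 4 ⊕ Fin 4 → Fin 2 → ℝ) (u v : Fin 4 ⊕ Fin 4) :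
    sq (toC q u - toC q v) = ((sq (q u - q v) : ℝ) : ℂ) := by
  simp [sq, toC]

lemma generic_toC {p : Fin 4 ⊕ Fin 4 → Fin 2 → ℝ}
    (hp : AlgebraicIndependent ℚ (fun x : (Fin 4 ⊕ Fin 4) × Fin 2 => p x.1 x.2)) :
    AlgebraicIndependent ℚ (fun x : (Fin 4 ⊕ Fin 4) × Fin 2 => toC p x.1 x.2) :=
  hp.map' (f := Complex.ofRealHom.toRatAlgHom) Complex.ofReal_injective

lemma equivalent_toC {p q : Fin 4 ⊕ Fin 4 → Fin 2 → ℝ} (h : Equivalent p q) :
    Equivalent (toC p) (toC q) := by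
  intro u v huv
  rw [sq_toC, sq_toC, h u v huv]

/-- The complex class of a real class. -/
def Classes.toC {p : Fin 4 ⊕ Fin 4 → Fin 2 → ℝ} : Classes p → Classes (toC p) :=
  Quotient.lift (fun q => Quotient.mk _ ⟨_, equivalent_toC q.2⟩) (by
    intro q q' h
    refine Quotient.sound fun u v => ?_
    have h1 := h u v
    simp only [sq_toC]
    rw [h1])

lemma Classes.toC_injective {p : Fin 4 ⊕ Fin 4 → Fin 2 → ℝ} :
    Function.Injective (Classes.toC (p := p)) := by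
  intro x y
  refine Quotient.inductionOn₂ x y ?_
  intro q q' h
  refine Quotient.sound fun u v => ?_
  have h1 := Quotient.exact h u v
  simp only [sq_toC] at h1
  exact Complex.ofReal_injective h1

lemma Classes.toC_not_surjective {p : Fin 4 ⊕ Fin 4 → Fin 2 → ℝ}
    (hp : AlgebraicIndependent ℚ (fun x : (Fin 4 ⊕ Fin 4) × Fin 2 => p x.1 x.2)) :
    ¬ Function.Surjective (Classes.toC (p := p)) := by
  have hp8 := generic_e8 hp
  have hl : AlgebraicIndependent ℚ (lam fun v => p (e8 v)) :=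
    algInd_lam' (p := fun v => p (e8 v)) hp8
  set P : Fin 8 → Fin 2 → ℝ := fun v => p (e8 v) with hP
  have pos : ∀ i j : Fin 8, i ≠ j → 0 < sqd P i j := by
    intro i j hij
    have hne : P i 0 - P j 0 ≠ 0 := by
      intro h
      have h1 : (fun x : Fin 8 × Fin 2 => p (e8 x.1) x.2) (i, 0)
          = (fun x : Fin 8 × Fin 2 => p (e8 x.1) x.2) (j, 0) := sub_eq_zero.mp h
      have h2 := hp8.injective h1
      exact hij (congrArg Prod.fst h2)
    have : 0 < (P i 0 - P j 0) ^ 2 := by positivity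
    simp only [sqd, Fin.sum_univ_two]
    nlinarith [sq_nonneg (P i 1 - P j 1)]
  obtain ⟨q, d, hq, hd, hlt⟩ := exists_placement hl (pos 0 4 (by decide)) (pos 0 5 (by decide))
  set q' : Fin 4 ⊕ Fin 4 → Fin 2 → ℂ := fun v => q (e8.symm v) with hq'
  have hq8 : (fun v => q' (e8 v)) = q := by
    funext v
    simp [hq']
  have hE : Equivalent (Results.MP_01c1f4_co.FewerRealClasses.toC p) q' := by
    rw [equivalent_iff, hq8]
    funext e
    have h1 : sqd q (eI e) (eJ e) = ((lam P e : ℝ) : ℂ) := hq e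
    have h2 := sq_toC p (e8 (eI e)) (e8 (eJ e))
    rw [← sqd_e8, ← sqd_e8] at h2
    exact h1.trans h2.symm
  intro hs
  obtain ⟨x, hx⟩ := hs (Quotient.mk _ ⟨q', hE⟩)
  revert hx
  refine Quotient.inductionOn x ?_
  intro r hr
  have hc := Quotient.exact hr
  have e1 := hc (e8 4) (e8 5)
  simp only [sq_toC] at e1
  rw [← sqd_e8, ← sqd_e8, hq8, hd] at e1
  have e2 : sqd (fun v => r.1 (e8 v)) 4 5 = d := Complex.ofReal_injective e1
  have hr' := (equivalent_iff _ _).1 r.2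
  have e5 : lam P 0 = sqd (fun v => r.1 (e8 v)) 0 4 := (congrFun hr' 0).symm
  have e6 : lam P 4 = sqd (fun v => r.1 (e8 v)) 0 5 := (congrFun hr' 4).symm
  rw [e5, e6, ← e2] at hlt
  simp only [sqd, Fin.sum_univ_two] at hlt
  nlinarith [sq_nonneg ((r.1 (e8 0) 0 - r.1 (e8 4) 0) * (r.1 (e8 0) 1 - r.1 (e8 5) 1)
      - (r.1 (e8 0) 1 - r.1 (e8 4) 1) * (r.1 (e8 0) 0 - r.1 (e8 5) 0))]

/-! ### The complex count does not depend on the generic placement -/

lemma exists_ringEquiv {κ κ' : Type} {v : κ → ℂ} {w : κ' → ℂ} (e : κ ≃ κ')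
    (hv : IsTranscendenceBasis ℚ v) (hw : IsTranscendenceBasis ℚ w) :
    ∃ σ : ℂ ≃+* ℂ, ∀ i, σ (v i) = w (e i) := by
  let _ := IsAlgClosed.isAlgClosure_of_transcendence_basis v hv
  let _ := IsAlgClosed.isAlgClosure_of_transcendence_basis w hw
  let f : Algebra.adjoin ℚ (Set.range v) ≃ₐ[ℚ] Algebra.adjoin ℚ (Set.range w) :=
    hv.1.aevalEquiv.symm.trans ((MvPolynomial.renameEquiv ℚ e).trans hw.1.aevalEquiv)
  refine ⟨IsAlgClosure.equivOfEquiv ℂ ℂ f.toRingEquiv, fun i => ?_⟩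
  have hmem : v i ∈ Algebra.adjoin ℚ (Set.range v) :=
    Algebra.subset_adjoin ⟨i, rfl⟩
  have h := IsAlgClosure.equivOfEquiv_algebraMap ℂ ℂ f.toRingEquiv ⟨v i, hmem⟩
  have h1 : hv.1.aevalEquiv.symm ⟨v i, hmem⟩ = MvPolynomial.X i := by
    rw [AlgEquiv.symm_apply_eq]
    apply Subtype.ext
    simp
  have h2 : f ⟨v i, hmem⟩ = hw.1.aevalEquiv (MvPolynomial.X (e i)) := by
    simp only [f, AlgEquiv.trans_apply, h1, MvPolynomial.renameEquiv_apply, MvPolynomial.rename_X]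
  have h3 : algebraMap (Algebra.adjoin ℚ (Set.range w)) ℂ (f ⟨v i, hmem⟩) = w (e i) := by
    rw [h2]
    simp
  exact h.trans h3

lemma exists_basis {ι : Type} [Finite ι] {x : ι → ℂ} (hx : AlgebraicIndependent ℚ x) :
    ∃ D : Set ℂ, Cardinal.mk D = Cardinal.mk ℂ ∧
      IsTranscendenceBasis ℚ (Sum.elim x (fun d : D => (d : ℂ)) : ι ⊕ D → ℂ) := by
  obtain ⟨B, hxB, hB⟩ := exists_isTranscendenceBasis_superset hx.coe_range
  let D : Set ℂ := B \ Set.range x
  let e : ι ⊕ D → B := Sum.elim (fun i => ⟨x i, hxB ⟨i, rfl⟩⟩) (fun d => ⟨d, d.2.1⟩)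
  have he : Function.Bijective e := by
    constructor
    · rintro (i | d) (j | d') h
      · have h1 : x i = x j := congrArg Subtype.val h
        rw [hx.injective h1]
      · have h1 : x i = (d' : ℂ) := congrArg Subtype.val h
        exact absurd ⟨i, h1⟩ d'.2.2
      · have h1 : (d : ℂ) = x j := congrArg Subtype.val h
        exact absurd ⟨j, h1.symm⟩ d.2.2
      · have h1 : (d : ℂ) = (d' : ℂ) := congrArg (fun b : B => (b : ℂ)) h
        rw [Subtype.ext h1]
    · rintro ⟨b, hb⟩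
      by_cases h : b ∈ Set.range x
      · obtain ⟨i, rfl⟩ := h
        exact ⟨Sum.inl i, rfl⟩
      · exact ⟨Sum.inr ⟨b, hb, h⟩, rfl⟩
  have hbas : IsTranscendenceBasis ℚ (Sum.elim x (fun d : D => (d : ℂ)) : ι ⊕ D → ℂ) := by
    have h1 : (Sum.elim x (fun d : D => (d : ℂ)) : ι ⊕ D → ℂ)
        = ((↑) : B → ℂ) ∘ (Equiv.ofBijective e he) := by
      funext y
      rcases y with i | d <;> rfl
    rw [h1]
    exact (isTranscendenceBasis_equiv (Equiv.ofBijective e he)).2 hB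
  have hcC : Cardinal.aleph0 < Cardinal.mk ℂ := by
    rw [Cardinal.mk_complex]; exact Cardinal.aleph0_lt_continuum
  have hcard := IsAlgClosed.cardinal_eq_cardinal_transcendence_basis_of_aleph0_lt'
    (Sum.elim x (fun d : D => (d : ℂ)) : ι ⊕ D → ℂ) hbas (by simp) hcC
  refine ⟨D, ?_, hbas⟩
  rw [Cardinal.mk_sum, Cardinal.lift_id, Cardinal.lift_id] at hcard
  exact Cardinal.eq_of_add_eq_of_aleph0_le hcard.symm
    ((Cardinal.lt_aleph0_of_finite ι).trans hcC) hcC.le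

lemma exists_aut {ι : Type} [Finite ι] {x y : ι → ℂ} (hx : AlgebraicIndependent ℚ x)
    (hy : AlgebraicIndependent ℚ y) : ∃ σ : ℂ ≃+* ℂ, ∀ i, σ (x i) = y i := by
  obtain ⟨D, hD, hv⟩ := exists_basis hx
  obtain ⟨D', hD', hw⟩ := exists_basis hy
  obtain ⟨eD⟩ := Cardinal.eq.1 (hD.trans hD'.symm)
  obtain ⟨σ, hσ⟩ := exists_ringEquiv (Equiv.sumCongr (Equiv.refl ι) eD) hv hw
  exact ⟨σ, fun i => hσ (Sum.inl i)⟩

lemma card_classes_map (σ : ℂ ≃+* ℂ) (p : Fin 4 ⊕ Fin 4 → Fin 2 → ℂ) :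
    Nat.card (Classes (fun v k => σ (p v k))) = Nat.card (Classes p) := by
  let E : (Fin 4 ⊕ Fin 4 → Fin 2 → ℂ) ≃ (Fin 4 ⊕ Fin 4 → Fin 2 → ℂ) :=
    Equiv.piCongrRight fun _ => Equiv.piCongrRight fun _ => σ.toEquiv
  have hE : ∀ q u v, sq (E q u - E q v) = σ (sq (q u - q v)) := by
    intro q u v
    simp [E, sq]
  refine Nat.card_congr (Equiv.symm ?_)
  refine Quotient.congr (Equiv.subtypeEquiv E ?_) ?_
  · intro q
    constructor
    · intro h u v huv
      have h1 := h u v huv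
      rw [show (fun v k => σ (p v k)) = E p from rfl, hE, hE, h1]
    · intro h u v huv
      have h1 := h u v huv
      rw [show (fun v k => σ (p v k)) = E p from rfl, hE, hE] at h1
      exact σ.injective h1
  · intro q q'
    constructor
    · intro h u v
      have h1 := h u v
      show sq (E q.1 u - E q.1 v) = sq (E q'.1 u - E q'.1 v)
      rw [hE, hE, h1]
    · intro h u v
      have h1 : sq (E q.1 u - E q.1 v) = sq (E q'.1 u - E q'.1 v) := h u v
      rw [hE, hE] at h1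
      exact σ.injective h1

lemma card_classes_eq {p p' : Fin 4 ⊕ Fin 4 → Fin 2 → ℂ}
    (hp : AlgebraicIndependent ℚ (fun x : (Fin 4 ⊕ Fin 4) × Fin 2 => p x.1 x.2))
    (hp' : AlgebraicIndependent ℚ (fun x : (Fin 4 ⊕ Fin 4) × Fin 2 => p' x.1 x.2)) :
    Nat.card (Classes p') = Nat.card (Classes p) := by
  obtain ⟨σ, hσ⟩ := exists_aut hp hp'
  have h : p' = fun v k => σ (p v k) := by
    funext v k
    exact (hσ (v, k)).symm
  rw [h]
  exact card_classes_map σ p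

/-! ### Rigidity -/

lemma rigid {p : Fin 4 ⊕ Fin 4 → Fin 2 → ℝ}
    (hp : AlgebraicIndependent ℚ (fun x : (Fin 4 ⊕ Fin 4) × Fin 2 => p x.1 x.2)) :
    ∃ ε > 0, ∀ q : Fin 4 ⊕ Fin 4 → Fin 2 → ℝ, Equivalent p q →
      (∀ v k, |q v k - p v k| < ε) → Congruent p q := by
  have hp8 := generic_e8 hp
  have hl : AlgebraicIndependent ℚ (lam fun v => p (e8 v)) :=
    algInd_lam' (p := fun v => p (e8 v)) hp8
  set P : Fin 8 → Fin 2 → ℝ := fun v => p (e8 v) with hP
  have hpos : 0 < sqd P 0 4 := by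
    have h0 : sqd P 0 4 ≠ 0 := hl.ne_zero 0
    have h1 : 0 ≤ sqd P 0 4 := by
      simp only [sqd, Fin.sum_univ_two]; positivity
    exact lt_of_le_of_ne h1 (Ne.symm h0)
  have hfin : ∀ u v : Fin 4 ⊕ Fin 4, {d : ℝ | ∃ q : Fin 4 ⊕ Fin 4 → Fin 2 → ℝ,
      Equivalent p q ∧ d = sq (q u - q v)}.Finite := by
    intro u v
    refine (finite_values hl hpos (e8.symm u) (e8.symm v)).subset ?_
    rintro d ⟨q, hq, rfl⟩
    refine ⟨fun v => q (e8 v), (equivalent_iff _ _).1 hq, ?_⟩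
    rw [sqd_e8]
    simp
  have hopen : ∀ᶠ q in nhds p, ∀ u v, sq (q u - q v) ∉
      ({d : ℝ | ∃ q : Fin 4 ⊕ Fin 4 → Fin 2 → ℝ, Equivalent p q ∧ d = sq (q u - q v)} \
        {sq (p u - p v)}) := by
    rw [Filter.eventually_all]
    intro u
    rw [Filter.eventually_all]
    intro v
    have hc : Continuous (fun q : Fin 4 ⊕ Fin 4 → Fin 2 → ℝ => sq (q u - q v)) := by
      unfold sq
      simp only [Pi.sub_apply]
      fun_prop
    have hcl := ((hfin u v).subset (Set.sdiff_subset (t := {sq (p u - p v)}))).isClosed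
    exact hc.continuousAt.eventually (hcl.isOpen_compl.mem_nhds (by simp))
  obtain ⟨ε, hε, h⟩ := Metric.eventually_nhds_iff.1 hopen
  refine ⟨ε, hε, fun q hq hd u v => ?_⟩
  have h1 := h (y := q) ((dist_pi_lt_iff hε).2 fun v => (dist_pi_lt_iff hε).2 fun k => by
    rw [Real.dist_eq]; exact hd v k) u v
  by_contra hne
  exact h1 ⟨⟨q, hq, rfl⟩, fun h => hne h.symm⟩

/-- Negative answer to Q1, for the graph `G` = `K₄,₄` minus three independent edges.  There is a
number `c` (the number `c(G)` of the problem) such that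

* for every generic realisation `p` of `G` in `ℂ²` the realisations of `G` in `ℂ²` that are
  equivalent to `p` form exactly `c` congruence classes (a finite number);
* for every generic realisation `p` of `G` in `ℝ²`, the framework `(G, p)` is rigid (all equivalent
  real realisations close to `p` are congruent to it), and the realisations of `G` in `ℝ²` that are
  equivalent to `p` form fewer than `c` congruence classes: `r(G, p) < c(G)`. -/
theorem result : ∃ c : ℕ,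
    (∀ p : Fin 4 ⊕ Fin 4 → Fin 2 → ℂ,
      AlgebraicIndependent ℚ (fun x : (Fin 4 ⊕ Fin 4) × Fin 2 => p x.1 x.2) →
      Finite (Classes p) ∧ Nat.card (Classes p) = c) ∧
    ∀ p : Fin 4 ⊕ Fin 4 → Fin 2 → ℝ,
      AlgebraicIndependent ℚ (fun x : (Fin 4 ⊕ Fin 4) × Fin 2 => p x.1 x.2) →
      (∃ ε > 0, ∀ q : Fin 4 ⊕ Fin 4 → Fin 2 → ℝ, Equivalent p q →
        (∀ v k, |q v k - p v k| < ε) → Congruent p q) ∧
      Finite (Classes p) ∧ Nat.card (Classes p) < c := by
  classical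
  have key : ∀ p : Fin 4 ⊕ Fin 4 → Fin 2 → ℝ,
      AlgebraicIndependent ℚ (fun x : (Fin 4 ⊕ Fin 4) × Fin 2 => p x.1 x.2) →
      Finite (Classes p) ∧ Nat.card (Classes p) < Nat.card (Classes (toC p)) := by
    intro p hp
    have hC : Finite (Classes (toC p)) := finite_classesC (generic_toC hp)
    have hR : Finite (Classes p) := Finite.of_injective _ Classes.toC_injective
    refine ⟨hR, ?_⟩
    let _ := Fintype.ofFinite (Classes p)
    let _ := Fintype.ofFinite (Classes (toC p))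
    rw [Nat.card_eq_fintype_card, Nat.card_eq_fintype_card]
    exact Fintype.card_lt_of_injective_not_surjective _ Classes.toC_injective
      (Classes.toC_not_surjective hp)
  by_cases hex : ∃ p₀ : Fin 4 ⊕ Fin 4 → Fin 2 → ℂ,
      AlgebraicIndependent ℚ (fun x : (Fin 4 ⊕ Fin 4) × Fin 2 => p₀ x.1 x.2)
  · obtain ⟨p₀, hp₀⟩ := hex
    refine ⟨Nat.card (Classes p₀), fun p hp => ⟨finite_classesC hp, card_classes_eq hp₀ hp⟩,
      fun p hp => ⟨rigid hp, (key p hp).1, ?_⟩⟩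
    rw [← card_classes_eq hp₀ (generic_toC hp)]
    exact (key p hp).2
  · exact ⟨0, fun p hp => absurd ⟨p, hp⟩ hex, fun p hp => absurd ⟨toC p, generic_toC hp⟩ hex⟩

end Pool.Agent.Results.MP_01c1f4_co.FewerRealClasses
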